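import Pool.Agent.R919.GT.Eng

/-!
# Tate classes on products of an arbitrary variety with elliptic curves

Let `k` be an algebraic closure of a finitely generated field `k_1` of characteristic zero, `ℓ` a prime
number, `K = ℚ_ℓ`, `Γ` the Galois group of `k/k_1` and `χ` the inverse of the cyclotomic character.
Let `X` be an ARBITRARY smooth projective variety and let `E_j` be elliptic curves without complex
multiplication over `k`, pairwise non-isogenous (finitely or infinitely many; all are supposed to
be defined over `k_1`). Let `ρ o` be the representation of `Γ` on the whole cohomology
`H^*(X, ℚ_ℓ)`; the Poincaré duality form `Q` is preserved up to powers of the cyclotomic character.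
Let `ρ j` be the representation on `H^1(E_j, ℚ_ℓ)`: it has dimension two, its determinant is `χ` (Weil
pairing), no line is stable under a subgroup of finite index (Serre), there is an element no
power of which has a double eigenvalue (for example a Frobenius element at an ordinary place), and
for different `j` the representations are not isomorphic over finite extensions (Faltings).
Nothing is assumed on the Galois representation of `X`, not even semisimplicity.

**Theorem.** There is a set `S` of at most `b(X) / 2` exceptional indices, where `b(X) = dim H^*(X)`,
such that for all the other ones the Tate classes on all the products
`X^a × E_1^{b_1} × ... × E_r^{b_r}` (with `E_i` not in `S`) are sums of products of Tate classes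
on `X^a` and on the `E_i^{b_i}`, and the twists of the factors add up to the twist of the class.
The Tate conjecture for the powers `E_i^{b}` is known; so if the Tate conjecture holds for the power
`X^a` then it holds for all the products `X^a × E_1^{b_1} × ... × E_r^{b_r}`. Moreover for every
exceptional index `i` the representation `End^0 H^1(E_i)` is a subquotient of `End H^*(X)`, and more
precisely there is an equivariant homomorphism of Lie algebras from a stable subalgebra of the
second onto the first. (For example this is impossible if at some place `E_i` has multiplicative and
`X` has potentially good reduction.)

The bound cannot be improved: take for `X` a product of some of the elliptic curves.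

In Lean the tensor product over `x : κ` of the representations `ρ (f x)` is the space of the
functions on `∏ B (f x)`, where `B j` is the index set of a basis of the representation `ρ j`.

The proof: for an element `γ` of the group and a map `θ` from the nonzero elements of the
algebraic closure to itself which takes products to sums, let `D_j` be the operator which is
multiplication by `θ(a)` on the generalized eigenspace of `ρ_j(γ)` for each eigenvalue `a`. The
tuples `D` for all `γ` and `θ` generate a Lie algebra `L` which is stable under conjugation by the
elements of the group and whose derived algebra `L'` annihilates all the Tate classes on tensor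
products. For the elliptic curves its projections are the Lie algebras of all matrices of trace
zero, and, by Goursat's lemma and an explicit form of the theorem of Skolem and Noether, also to
all finite products of them. For finitely many exceptional indices `i` let `x` be an element of `L'`
whose components at `i` are `μ_i diag(1, -1)` for numbers `μ_i` which are linearly independent over
the rational numbers. As `x_i` is a function of the component `x_o`, the number `2 μ_i` is a difference
of eigenvalues of `x_o`. The set of these eigenvalues is symmetric because of the form `Q`, so it
spans a space of dimension at most `dim H^*(X) / 2` over the rational numbers. For the other indices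
`L'` contains the matrices of trace zero at the place `i` extended by zero on the other colours
which occur, and tensors which are killed by them are semi-invariant under `GL_2`.
-/

namespace Pool.Agent.Results.MP_640417_ag.FewExceptionalCurves

open Pool.Agent.R919.GT Matrix

theorem result {K Γ J : Type} [Field K] [CharZero K] [Group Γ] [DecidableEq J] {B : J → Type}
    [∀ j, Fintype (B j)] [∀ j, DecidableEq (B j)] (ρ : ∀ j, Γ →* Matrix (B j) (B j) K)
    (χ : Γ →* Kˣ) (o : J) (Q : Matrix (B o) (B o) K) (hQu : IsUnit Q)
    (hQ : ∀ γ, ∃ r : K, (ρ o γ)ᵀ * Q * ρ o γ = r • Q)
    (h1 : ∀ j, j ≠ o → IsEll χ (ρ j))
    (h2 : ∀ i j, i ≠ o → j ≠ o → i ≠ j → NonIso (ρ i) (ρ j)) :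
    ∃ S : Finset J, o ∉ S ∧ 2 * S.card ≤ Fintype.card (B o) ∧ (∀ i ∈ S, Linked (ρ o) (ρ i)) ∧
      ∀ (κ : Type) [Fintype κ] [DecidableEq κ] [Nonempty κ] (f : κ → J), (∀ x, f x ∉ S) →
        ∀ m : ℤ, ∃ e : J → ℤ, (∑ j ∈ Finset.univ.image f, e j = m) ∧
          tateClasses ρ χ f m ≤ ∏ j ∈ Finset.univ.image f, tateClassesOf ρ χ f j (e j) :=
  main o Q hQu hQ h1 h2

end Pool.Agent.Results.MP_640417_ag.FewExceptionalCurves
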