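import Pool.Agent.R929.AF.Fin

/-!
# The Tate conjecture for all products of varieties of a family with an arbitrary variety follows from
finitely many cases

Let `W` be a Weil cohomology theory with algebraically closed coefficients on a class of smooth proper
varieties over an algebraically closed field `k` (the example: the étale cohomology with coefficients in
an algebraic closure of `ℚ_ℓ`; `k` the algebraic closure of a field `k₁` which is finitely generated
over `ℚ`), and `Γ` a group with the formal properties of the Galois group of `k₁`; `χ` is its
character on the Tate twists.

Let `X_i`, `i ∈ ι`, be a (finite or infinite) family of odd-dimensional varieties over `k₁`, for which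
numerical and homological equivalence coincide, whose transcendental cohomology `T_i` (the
orthogonal complement of all algebraic classes) is in the middle degree, such that `Γ` acts irreducibly
on the operators on `T_i` which are skew with respect to the intersection form (or `dim T_i = 2` and
`T_i` is irreducible under all subgroups of finite index), some element of `Γ` has two eigenvalues on
`T_i` whose quotient is not a root of unity (Frobenius elements at most places), and these adjoint
representations are not isomorphic for different `i`. Examples: curves of genus `g ≥ 1` and
hypersurfaces and complete intersections of odd dimension with big monodromy (the image of Galois is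
open in the group of symplectic similitudes of `T_i = H^n(X_i)`).

Let `Z` be an **arbitrary** variety over `k₁` (nothing is assumed on the Galois representations on its
cohomology, not even semisimplicity). For a list `L = [i_1, ..., i_n]` (with repetitions) let
`Y_L = X_{i_1} × ... × X_{i_n} × Z`.

**Theorem.** There are a finite set `B` of indices, with
`∑_{i ∈ B} dim T_i ≤ dim H^*(Z)`, and a **finite set `𝒮` of lists** of elements of `B` of length less
than `dim H^*(Z)`, such that for all lists `L` the Tate conjecture for `Y_L` (over all finite
extensions of `k₁`, in all codimensions) holds if and only if it holds for the finitely many varieties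
`Y_{L'}` for the sublists `L'` of `L` which are in `𝒮`.

So the Tate conjecture for all the varieties `Y_L`, which form an infinite family of unbounded
dimension also if there is only one `X_i` (all the products `X^n × Z`), follows from finitely
many cases. The lists in `𝒮` are small in the following precise sense: for some degree `m` of the
parity of `∑ dim X_i` the numbers `∏_{i ∈ L'} (n_i + 1)` (`n_i` the multiplicity of `i` in `L'`) and
`∑_{i ∈ L'} dim T_i` are at most the Betti number `b_m(Z)`; and if the slopes of some Frobenius element
on `T_i` have distance at least `δ_i / 2` from `dim X_i / 2` then `∑_{i ∈ L'} n_i δ_i` is at most `m` and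
at most `2 dim Z - m`. The elements `i` of `B` are not separated from `Z` by slopes: if `H^*(Z)` is
generated by subrepresentations in each of which the slopes of a Frobenius element differ by at most
`N`, and this element has a slope greater than `(dim X_i + N) / 2` on `T_i` then `i` is not in `B`.

The proof: the operators on `T_i` which annihilate all the multilinear maps from `T_i` to the
cohomology of the other factors which are equivariant for a subgroup of finite index form a Lie
algebra, which is the full symplectic algebra or zero; if it is zero the whole Lie algebra `sp(T_i)`
appears in the Lie algebra of the operators of `H^*(Z)` which are generated by Galois, and different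
indices give commuting independent copies. Then one decomposes the cohomology of `Z` for the action of
these Lie algebras.
-/

universe u

namespace Pool.Agent.Results.MP_640417_ag.FiniteReduction

open Pool.Agent.H914 Pool.Agent.H281R3.HT Pool.Agent.TH125.Gal Pool.Agent.Y132.AF
  Pool.Agent.R929.AF

/-- **The Tate conjecture for all products of varieties of a family with an arbitrary variety follows
from finitely many cases.** -/
theorem result {k : Type u} [Field k] {𝒱 : VarClass k} {ops : CycleOps 𝒱}
    (W : WeilCohomology.{u, 0} ops) [IsAlgClosed W.K] {Γ : Type} [Group Γ] (χ : Γ →* W.Kˣ)
    {ι : Type} [DecidableEq ι] (X : ι → GVar W Γ) (Z : GVar W Γ) (hX : AdFamily χ X)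
    (hZ : GradedVar Z) :
    ∃ (B : Finset ι) (𝒮 : Finset (List ι)), ∑ i ∈ B, trRank (X i) ≤ totRank Z ∧
      (∀ i ∈ B, ¬Separated χ (X i) Z) ∧
      (∀ L ∈ 𝒮, SmallList χ X Z B L ∧ L.length < totRank Z) ∧
      (∀ (L : List ι) (Y : GVar W Γ), IsTower X Z L Y →
        (TateConjecture χ Y ↔ ∀ L' ∈ 𝒮, L'.Sublist L → ∀ Y' : GVar W Γ,
          IsTower X Z L' Y' → TateConjecture χ Y')) :=
  finite_tate hX hZ

end Pool.Agent.Results.MP_640417_ag.FiniteReduction
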