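import Mathlib
import Pool.Agent.R932.ProdF
import Pool.Agent.R932.OP.OrthA
import Pool.Agent.R932.OP.SymB
import Pool.Agent.Y884.ZI.Open
import Pool.Agent.R932.EV.All

/-!
# The Tate conjecture for `X^4` at one prime and for `X^2` at `ℓ` implies it for all `X^n × Z` at `ℓ`:
motives of odd rank with a symmetric form

Let `k` be a field which is finitely generated over `ℚ`, `X` a smooth projective variety over `k` and `T_ℓ`,
for all prime numbers `ℓ`, a direct factor of `H^{2i}(X, ℚ_ℓ)(i)` which is cut out by correspondences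
(for example the part which is orthogonal to the algebraic classes), with the symmetric form `B_ℓ` given by
a polarization. Suppose that the rank `N` of `T_ℓ` is odd and at least `5`. `Γ` is the Galois group of `k` (or the
fundamental group of a model), `K` a number field and `s : G_K → Γ` the homomorphism given by a closed
point of the generic fibre of a model of `X` (if `k` is a number field, then `K = k` and `s` is the identity).
At the places `v ∉ S` of `K` the characteristic polynomial `P_v` of the geometric Frobenius on `T_ℓ` has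
rational coefficients which do not depend on `ℓ` (Deligne).

Suppose that for ONE prime number `ℓ₀` which does not divide `N - 1` (so `ℓ₀ ≠ 2`)
(T) the Tate classes in `T_{ℓ₀}^{⊗ 4}` (a part of the cohomology of `X^4`), over all finite extensions
of `k`, are combinations of the three products of two polarization classes;
(S) the representation on `T_{ℓ₀}^{⊗ 2}`, that is on `End(T_{ℓ₀})`, is semisimple;
(P) the image of `s(G_K)` in the `ℓ₀`-adic representation contains the image of an open subgroup of `Γ` (there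
are infinitely many such closed points, by Hilbert's irreducibility theorem: Serre, Terasoma); and some
root of `P_{v₀}`, for some place `v₀ ∉ S` prime to `ℓ₀`, is not a root of unity.

**Theorem.** (1) There is a set of prime numbers of natural density zero such that for all prime numbers
`ℓ` outside this set
(a) the image of `G_K` (and so of `Γ`) is open in the orthogonal group of `T_ℓ`;
(b) for every variety `Z` over the algebraic closure of `k`, and every cohomology group `W` of `Z` with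
coefficients `ℚ_ℓ` and any Tate twist (or any representation `W` of an open subgroup of `Γ` on a
`ℚ_ℓ`-vector space: no continuity, semisimplicity or purity is needed) which is independent of `X` at one
Frobenius element, all Tate classes in `T_ℓ^{⊗ n} ⊗ W`, a part of the cohomology of `X^n × Z`, are, for every
`n`, sums of products of polarization classes and Tate classes on `Z` and, for odd `n ≥ N`, of products of
polarization classes, the determinant of `N` variables and classes on `Z` on which the Galois group acts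
through the determinant of `T_ℓ`.
(2) For EVERY prime number `ℓ` (also `ℓ = 2`) such that `T_ℓ` is a semisimple representation and the Tate
classes in `End(T_ℓ)` (a part of the cohomology of `X × X`), over all finite extensions of `k`, are the
scalars, the image of `Γ` is open in the orthogonal group of `T_ℓ`, and (b) holds.

So the Tate conjecture for `X^4` in the form (T) together with (S) at one prime number `ℓ₀` implies for 100
percent of the prime numbers `ℓ` that the Tate classes on all varieties `X^n × Z` which come from `T` are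
algebraic, if this is true for `Z` (and for the determinant class if `n ≥ N` is odd), and the same for
every prime number `ℓ` at which the Tate classes in `End(T_ℓ)` are as expected. The hypotheses are
satisfied if the image of the Galois group at the one prime `ℓ₀` is open in the orthogonal group.

Idea of the proof. (A) Larsen's alternative at `ℓ₀`, infinitesimally: by (S) there is an equivariant
projection of `End(T)` onto the Lie algebra of the image; it is a Tate class in `T^{⊗ 4}`, by (T) a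
combination of the identity, the adjoint and the trace, and so a scalar on `so(T)`. Hence the Lie algebra
is `0` or `so(T)`, and it is not `0`. (B) From the open image at `ℓ₀` one finds (Chebotarev, p-adic
approximation) places `v` with roots of `P_v` in special positions over `ℚ_{ℓ₀}`: a place with `x y ≠ z`
for all roots, and a place with a full cycle. The zero-one law for Tate subquotients of the starting
files shows that there is none for 100 percent of the `ℓ`, since there is none at `ℓ₀`; this gives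
infinitely many primes with open image, and then places `v` for which the Galois group of `P_v` is the full
Weyl group of type `B` over any given number field (local types at four of these primes). Chebotarev's
theorem for `ℓ` shows that for 100 percent of the primes `P_v / (X - 1)` is irreducible over `ℚ_ℓ` for such
places `v`, and then the image is open. (C) For every prime `ℓ` there is a place `v` prime to `ℓ`
with `x y ≠ z` for all roots of `P_v / (X - 1)`. If `T_ℓ` is semisimple with scalar Tate classes, all open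
subgroups act irreducibly (Clifford), and the Lie algebra, which contains the components `v ∧ Z v` of its
elements for the fixed vector `v` of the Frobenius element, is `so(T)`. (D) For `Z` one uses a logarithm of
the Frobenius element (`OddRankTimesAnything`).

Part (B) uses the global argument of the starting files (project ZI of helper142, most of its tasks were
proved there); the other tasks were proved in this run by helper393 (permutation groups), helper757
(unramified extensions), helper810 (clusters of roots, full cycles), helper62 (other local types),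
helper329 (generic type), helper499 and helper539 (elements of the orthogonal Lie algebra) and helper557 (no Tate
subquotients for open images, Cayley transforms).
-/

set_option autoImplicit false

namespace Pool.Agent.Results.MP_640417_ag.FourthPowerAtOnePrime

open Matrix Polynomial Filter Topology NumberField IsDedekindDomain

/-- the absolute Galois group of `K`, with its profinite (Krull) topology -/
abbrev AbsoluteGaloisGroup (K : Type) [Field K] : Type := Gal(AlgebraicClosure K/K)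

/-- `σ` is an (arithmetic) Frobenius element at the prime `v` of the number field `K`: for some prime
`Q` of the algebraic closure above `v` it acts on the residue field as `x ↦ x ^ N(v)` -/
def IsFrobenius {K : Type} [Field K] [NumberField K] (v : HeightOneSpectrum (𝓞 K))
    (σ : AbsoluteGaloisGroup K) : Prop :=
  ∃ Q : Ideal (𝓞 (AlgebraicClosure K)), Q.IsMaximal ∧
    Q.comap (algebraMap (𝓞 K) (𝓞 (AlgebraicClosure K))) = v.asIdeal ∧
    ∀ x : 𝓞 (AlgebraicClosure K), σ • x - x ^ Ideal.absNorm v.asIdeal ∈ Q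

/-- `ρ` is a continuous representation of `Γ` on `ℚ_ℓ ^ N` by isometries of the nondegenerate symmetric
form with the matrix `B`; for all `v ∉ S` which are prime to `ℓ` the characteristic polynomial of (the image
under `s` of) the geometric Frobenius elements `σ⁻¹` (`σ` arithmetic) at `v` is `P v` -/
def IsOrthogonalSystem {K : Type} [Field K] [NumberField K] {Γ : Type} [Group Γ] [TopologicalSpace Γ]
    (s : AbsoluteGaloisGroup K →* Γ) (N ℓ : ℕ) [Fact ℓ.Prime]
    (ρ : Γ →* Matrix (Fin N) (Fin N) ℚ_[ℓ]) (B : Matrix (Fin N) (Fin N) ℚ_[ℓ])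
    (S : Set (HeightOneSpectrum (𝓞 K))) (P : HeightOneSpectrum (𝓞 K) → ℚ[X]) : Prop :=
  Continuous ρ ∧ Bᵀ = B ∧ B.det ≠ 0 ∧ (∀ γ, (ρ γ)ᵀ * B * ρ γ = B) ∧
    ∀ v ∉ S, (ℓ : 𝓞 K) ∉ v.asIdeal → ∀ σ : AbsoluteGaloisGroup K, IsFrobenius v σ →
      (ρ (s σ⁻¹)).charpoly = (P v).map (algebraMap ℚ ℚ_[ℓ])

/-- (T): every quadrilinear form on `ℚ_ℓ ^ N` which is invariant under an open subgroup (a Tate class in
the fourth tensor power) is a linear combination of the three products of two values of `B` -/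
def TateClassesOnFourthPower {Γ : Type} [Group Γ] [TopologicalSpace Γ] {N : ℕ} (ℓ : ℕ)
    [Fact ℓ.Prime] (ρ : Γ →* Matrix (Fin N) (Fin N) ℚ_[ℓ]) (B : Matrix (Fin N) (Fin N) ℚ_[ℓ]) :
    Prop :=
  ∀ (φ : MultilinearMap ℚ_[ℓ] (fun _ : Fin 4 => Fin N → ℚ_[ℓ]) ℚ_[ℓ]) (U : Subgroup Γ),
    IsOpen (U : Set Γ) → (∀ σ ∈ U, ∀ v, φ (fun j => ρ σ *ᵥ v j) = φ v) →
    ∃ a b d : ℚ_[ℓ], ∀ v, φ v = a * ((v 0 ⬝ᵥ B *ᵥ v 1) * (v 2 ⬝ᵥ B *ᵥ v 3)) +
      b * ((v 0 ⬝ᵥ B *ᵥ v 2) * (v 1 ⬝ᵥ B *ᵥ v 3)) +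
      d * ((v 0 ⬝ᵥ B *ᵥ v 3) * (v 1 ⬝ᵥ B *ᵥ v 2))

/-- (S): the representation on the endomorphisms of `ℚ_ℓ ^ N` is semisimple: every stable subspace has
a stable complement -/
def IsSemisimpleOnSquare {Γ : Type} [Group Γ] {N : ℕ} (ℓ : ℕ) [Fact ℓ.Prime]
    (ρ : Γ →* Matrix (Fin N) (Fin N) ℚ_[ℓ]) : Prop :=
  ∀ W : Submodule ℚ_[ℓ] (Matrix (Fin N) (Fin N) ℚ_[ℓ]),
    (∀ σ, ∀ A ∈ W, ρ σ * A * ρ σ⁻¹ ∈ W) →
    ∃ W' : Submodule ℚ_[ℓ] (Matrix (Fin N) (Fin N) ℚ_[ℓ]), IsCompl W W' ∧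
      ∀ σ, ∀ A ∈ W', ρ σ * A * ρ σ⁻¹ ∈ W'

/-- the representation is semisimple: every stable subspace has a stable complement -/
def IsSemisimple {Γ : Type} [Group Γ] {N : ℕ} (ℓ : ℕ) [Fact ℓ.Prime]
    (ρ : Γ →* Matrix (Fin N) (Fin N) ℚ_[ℓ]) : Prop :=
  ∀ W : Submodule ℚ_[ℓ] (Fin N → ℚ_[ℓ]), (∀ σ, ∀ w ∈ W, ρ σ *ᵥ w ∈ W) →
    ∃ W' : Submodule ℚ_[ℓ] (Fin N → ℚ_[ℓ]), IsCompl W W' ∧ ∀ σ, ∀ w ∈ W', ρ σ *ᵥ w ∈ W'

/-- all endomorphisms of `ℚ_ℓ ^ N` which commute with an open subgroup (the Tate classes in the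
endomorphisms, a part of the cohomology of `X × X`, over finite extensions) are scalars -/
def HasScalarEndomorphisms {Γ : Type} [Group Γ] [TopologicalSpace Γ] {N : ℕ} (ℓ : ℕ)
    [Fact ℓ.Prime] (ρ : Γ →* Matrix (Fin N) (Fin N) ℚ_[ℓ]) : Prop :=
  ∀ (A : Matrix (Fin N) (Fin N) ℚ_[ℓ]) (U : Subgroup Γ), IsOpen (U : Set Γ) →
    (∀ σ ∈ U, A * ρ σ = ρ σ * A) → ∃ c : ℚ_[ℓ], A = c • (1 : Matrix (Fin N) (Fin N) ℚ_[ℓ])

/-- the image of `G` (under `ρ ∘ s`) contains a neighbourhood of the identity in the orthogonal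
group of `B` -/
def ImageIsOpen {G Γ : Type} [Group G] [Group Γ] (s : G →* Γ) {N : ℕ} (ℓ : ℕ) [Fact ℓ.Prime]
    (ρ : Γ →* Matrix (Fin N) (Fin N) ℚ_[ℓ]) (B : Matrix (Fin N) (Fin N) ℚ_[ℓ]) : Prop :=
  ∃ ε : ℝ, 0 < ε ∧ ∀ g : Matrix (Fin N) (Fin N) ℚ_[ℓ], gᵀ * B * g = B →
    (∀ i j, ‖(g - 1) i j‖ < ε) → ∃ σ, ρ (s σ) = g

/-- some nonzero complex root of `Q` has no positive power in the multiplicative group generated by
the nonzero complex roots of `R` -/
def HasIndependentRoot (Q R : ℚ[X]) : Prop :=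
  ∃ x : ℂˣ, aeval (x : ℂ) Q = 0 ∧ ∀ m : ℕ, 0 < m →
    x ^ m ∉ Subgroup.closure {y : ℂˣ | aeval (y : ℂ) R = 0}

/-- The representation `W` of the open subgroup `U₀` is independent of the system: for some place `v ∉ S`
prime to `ℓ`, a Frobenius element `σ` at `v` and some `f > 0` with `s(σ) ^ (-f) ∈ U₀`, the
characteristic polynomial of `W(s(σ) ^ (-f))` divides a polynomial `R` with rational coefficients such that
some root of `P v` has no positive power in the group generated by the roots of `R` -/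
def IsIndependent {K : Type} [Field K] [NumberField K] {Γ : Type} [Group Γ]
    (s : AbsoluteGaloisGroup K →* Γ) (ℓ : ℕ) [Fact ℓ.Prime]
    (S : Set (HeightOneSpectrum (𝓞 K))) (P : HeightOneSpectrum (𝓞 K) → ℚ[X])
    (U₀ : Subgroup Γ) {L : ℕ} (W : U₀ →* Matrix (Fin L) (Fin L) ℚ_[ℓ]) : Prop :=
  ∃ (v : HeightOneSpectrum (𝓞 K)) (σ : AbsoluteGaloisGroup K) (f : ℕ) (h : s σ⁻¹ ^ f ∈ U₀) (R : ℚ[X]),
    v ∉ S ∧ (ℓ : 𝓞 K) ∉ v.asIdeal ∧ IsFrobenius v σ ∧ 0 < f ∧
      (W ⟨s σ⁻¹ ^ f, h⟩).charpoly ∣ R.map (algebraMap ℚ ℚ_[ℓ]) ∧ HasIndependentRoot (P v) R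

/-- For every open subgroup `U₀` of `Γ` and every independent representation `W` of `U₀`, every
multilinear map with `k` variables from `ℚ_ℓ ^ N` to `W` which is equivariant under an
open subgroup `U` of `U₀` is a linear combination of the maps `v ↦ (∏ B(v_j, v_{π j})) w` (one factor for
every pair `{j, π j}`), where `π` is a perfect matching of the variables and `w ∈ W` is fixed by `U`, and
of the maps `v ↦ det(v_{a_1}, ..., v_{a_N}) (∏ B(v_i, v_j)) w`, where the `N` variables `v_a` and the pairs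
`(v_i, v_j)` are given by a bijection `e` and `U` acts on `w` by the determinant of its action on
`ℚ_ℓ ^ N` -/
def TateClassesOnProducts {K : Type} [Field K] [NumberField K] {Γ : Type} [Group Γ]
    [TopologicalSpace Γ] (s : AbsoluteGaloisGroup K →* Γ) {N : ℕ} (ℓ : ℕ) [Fact ℓ.Prime]
    (ρ : Γ →* Matrix (Fin N) (Fin N) ℚ_[ℓ]) (B : Matrix (Fin N) (Fin N) ℚ_[ℓ])
    (S : Set (HeightOneSpectrum (𝓞 K))) (P : HeightOneSpectrum (𝓞 K) → ℚ[X]) : Prop :=
  ∀ (U₀ : Subgroup Γ), IsOpen (U₀ : Set Γ) →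
    ∀ (L : ℕ) (W : U₀ →* Matrix (Fin L) (Fin L) ℚ_[ℓ]), IsIndependent s ℓ S P U₀ W →
    ∀ (k : ℕ) (φ : MultilinearMap ℚ_[ℓ] (fun _ : Fin k => Fin N → ℚ_[ℓ]) (Fin L → ℚ_[ℓ]))
      (U : Subgroup U₀), IsOpen (U : Set U₀) →
    (∀ σ ∈ U, ∀ v, φ (fun j => ρ σ *ᵥ v j) = W σ *ᵥ φ v) →
    (fun v => φ v) ∈ Submodule.span ℚ_[ℓ] {ψ : (Fin k → Fin N → ℚ_[ℓ]) → (Fin L → ℚ_[ℓ]) |
      (∃ (π : Equiv.Perm (Fin k)) (w : Fin L → ℚ_[ℓ]), (∀ j, π (π j) = j) ∧ (∀ j, π j ≠ j) ∧
        (∀ σ ∈ U, W σ *ᵥ w = w) ∧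
        ∀ v, ψ v = (∏ j with j < π j, (v j ⬝ᵥ B *ᵥ v (π j))) • w) ∨
      ∃ (m : ℕ) (e : (Fin m × Fin 2) ⊕ Fin N ≃ Fin k) (w : Fin L → ℚ_[ℓ]),
        (∀ σ ∈ U, W σ *ᵥ w = (ρ σ).det • w) ∧
        ∀ v, ψ v = ((Matrix.of fun i => v (e (Sum.inr i))).det *
          ∏ l, (v (e (Sum.inl (l, 0))) ⬝ᵥ B *ᵥ v (e (Sum.inl (l, 1))))) • w}

/-- the set `A` of prime numbers has natural density zero -/
def HasDensityZero (A : Set ℕ) : Prop :=
  Tendsto (fun n : ℕ => (Nat.card {ℓ : ℕ // ℓ ≤ n ∧ ℓ ∈ A} : ℝ) / (Nat.primeCounting n : ℝ))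
    atTop (𝓝 0)

/-- **Tate classes on `X^4` at one prime number, and Tate classes on `X^n × Z` at 100 percent of the
prime numbers and at every prime number at which the Tate classes on `X^2` are as expected; odd
rank.** -/
theorem result (K : Type) [Field K] [NumberField K] (Γ : Type) [Group Γ] [TopologicalSpace Γ]
    [IsTopologicalGroup Γ] [CompactSpace Γ] (s : AbsoluteGaloisGroup K →* Γ) (hs : Continuous s)
    (N : ℕ) (hodd : Odd N) (hN5 : 5 ≤ N) (S : Set (HeightOneSpectrum (𝓞 K))) (hS : S.Finite)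
    (P : HeightOneSpectrum (𝓞 K) → ℚ[X])
    (ρ : ∀ (ℓ : ℕ) [Fact ℓ.Prime], Γ →* Matrix (Fin N) (Fin N) ℚ_[ℓ])
    (B : ∀ (ℓ : ℕ) [Fact ℓ.Prime], Matrix (Fin N) (Fin N) ℚ_[ℓ])
    (hρ : ∀ (ℓ : ℕ) [Fact ℓ.Prime], IsOrthogonalSystem s N ℓ (ρ ℓ) (B ℓ) S P)
    -- the prime number `ℓ₀`
    (ℓ₀ : ℕ) [Fact ℓ₀.Prime] (hdvd : ¬ ℓ₀ ∣ N - 1)
    (hT : TateClassesOnFourthPower ℓ₀ (ρ ℓ₀) (B ℓ₀)) (hss : IsSemisimpleOnSquare ℓ₀ (ρ ℓ₀))
    (U₁ : Subgroup Γ) (hU₁ : IsOpen (U₁ : Set Γ)) (hsU : ∀ γ ∈ U₁, ∃ σ, ρ ℓ₀ (s σ) = ρ ℓ₀ γ)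
    (v₀ : HeightOneSpectrum (𝓞 K)) (hv₀ : v₀ ∉ S) (hv₀ℓ : (ℓ₀ : 𝓞 K) ∉ v₀.asIdeal)
    (x₀ : ℂ) (hx₀ : aeval x₀ (P v₀) = 0) (hx₀' : ∀ n : ℕ, 0 < n → x₀ ^ n ≠ 1) :
    HasDensityZero {ℓ | ∃ _ : Fact ℓ.Prime, ¬ (ImageIsOpen s ℓ (ρ ℓ) (B ℓ) ∧
      TateClassesOnProducts s ℓ (ρ ℓ) (B ℓ) S P)} ∧
    ∀ (ℓ : ℕ) [Fact ℓ.Prime], IsSemisimple ℓ (ρ ℓ) → HasScalarEndomorphisms ℓ (ρ ℓ) →
      ImageIsOpen (MonoidHom.id Γ) ℓ (ρ ℓ) (B ℓ) ∧
      TateClassesOnProducts s ℓ (ρ ℓ) (B ℓ) S P := by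
  have horth : ∀ (ℓ : ℕ) [Fact ℓ.Prime],
      Y142.ZO.Orthogonal K N ℓ ((ρ ℓ).comp s) (B ℓ) S P := fun ℓ _ =>
    ⟨(hρ ℓ).1.comp hs, (hρ ℓ).2.1, (hρ ℓ).2.2.1, fun g => (hρ ℓ).2.2.2.1 (s g),
      fun v hv hvℓ σ hσ => (hρ ℓ).2.2.2.2 v hv hvℓ σ hσ⟩
  have hsk : ∀ (ℓ : ℕ) [Fact ℓ.Prime] (X : Matrix (Fin N) (Fin N) ℚ_[ℓ]),
      Y142.ZO.Skew (B ℓ) X ↔ Y142.ZS.SpLie (B ℓ) X := by
    intro ℓ _ X
    unfold Y142.ZO.Skew Y142.ZS.SpLie
    rw [transpose_mul, (hρ ℓ).2.1, ← add_eq_zero_iff_eq_neg]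
  have hfull : Y142.ZI.FullLie ℓ₀ ((ρ ℓ₀).comp s) (B ℓ₀) := by
    obtain ⟨σ, hσ⟩ := Pool.Agent.W401.Frob.exists_frob v₀
    have h1 : ∀ X, Y142.ZS.SpLie (B ℓ₀) X → Y142.ZO.IsTangent ℓ₀ (ρ ℓ₀) X := by
      refine R932.OP.full_of_tate4 Y708.ZO.t Y497.ZO.log Y497.ZO.pow (hρ ℓ₀).1 (by omega) (Or.inl rfl)
        (by rw [one_smul]; exact (hρ ℓ₀).2.1) (hρ ℓ₀).2.2.1
        (fun g => ⟨1, by rw [one_smul]; exact (hρ ℓ₀).2.2.2.1 g⟩) ?_ hss (σ₀ := s σ⁻¹) ?_
      · intro φ U hU hφ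
        obtain ⟨a, b, d, h⟩ := hT φ U hU fun σ hσ v => by
          have h3 := hφ σ hσ 1 (by rw [one_smul]; exact (hρ ℓ₀).2.2.2.1 σ) v
          rwa [one_pow, one_mul] at h3
        exact R932.OP.three_mem (B ℓ₀) h
      · intro n c hn
        refine R932.OP.nonscalar (q := 1) (by omega) (hρ ℓ₀).2.2.1
          ((hρ ℓ₀).2.2.2.2 v₀ hv₀ hv₀ℓ σ hσ) ?_ ?_ n c hn
        · rw [Rat.cast_one, one_smul]
          exact (hρ ℓ₀).2.2.2.1 _
        · intro n hn
          refine ⟨x₀, hx₀, ?_⟩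
          rw [Rat.cast_one, one_pow]
          exact hx₀' _ (by omega)
    intro X hX
    exact R932.OP.tangent_comp (hρ ℓ₀).1 hU₁ hsU (h1 X ((hsk ℓ₀ X).1 hX))
  have h20 : ℓ₀ ≠ 2 := by
    rintro rfl
    obtain ⟨j, hj⟩ := hodd
    exact hdvd ⟨j, by omega⟩
  have hprod : ∀ (ℓ : ℕ) [Fact ℓ.Prime], (∀ X, Y142.ZS.SpLie (B ℓ) X → Y142.ZO.IsTangent ℓ (ρ ℓ) X) →
      TateClassesOnProducts s ℓ (ρ ℓ) (B ℓ) S P := by
    intro ℓ _ hgood U₀ hU₀ L W ⟨v, σ, f, hf, R, hv, hvℓ, hσ, hf0, hR, x, hx, hxm⟩ k φ U hU hφ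
    exact R932.prod_so (hρ ℓ).1 (hρ ℓ).2.1 hN5 (hρ ℓ).2.2.1 hgood (hρ ℓ).2.2.2.1 hU₀ hf hf0
      ((hρ ℓ).2.2.2.2 v hv hvℓ σ hσ) hR hx hxm hU hφ
  constructor
  · refine Y142.ZI.DensityZero.mono (R932.OP.orth_one hodd (by omega) hS (fun ℓ _ => (ρ ℓ).comp s) B
      horth ℓ₀ hdvd hfull) ?_
    rintro ℓ ⟨hp, hno⟩
    refine ⟨hp, fun hgood => hno ⟨?_, ?_⟩⟩
    · exact Y884.ZI.t ℓ N _ ((ρ ℓ).comp s) (horth ℓ).1 (B ℓ) (horth ℓ).2.1 (horth ℓ).2.2.1
        (horth ℓ).2.2.2.1 hgood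
    · refine hprod ℓ fun X hX => ?_
      obtain ⟨τ, hτ⟩ := hgood X ((hsk ℓ X).2 hX)
      exact ⟨fun n => s (τ n), hτ⟩
  · intro ℓ hℓ h1 h2
    have hgood : Y142.ZI.FullLie ℓ (ρ ℓ) (B ℓ) := R932.EV.so_odd_every hodd (by omega) hS s ρ B
      (fun ℓ _ => (hρ ℓ).1) (fun ℓ _ => (hρ ℓ).2.2.2.1) horth ℓ₀ h20 hfull ℓ
      (R932.EV.strong_of_ss (ρ ℓ) h1 h2)
    refine ⟨?_, hprod ℓ fun X hX => hgood X ((hsk ℓ X).2 hX)⟩
    exact Y884.ZI.t ℓ N Γ (ρ ℓ) (hρ ℓ).1 (B ℓ) (hρ ℓ).2.1 (hρ ℓ).2.2.1 (hρ ℓ).2.2.2.1 hgood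

end Pool.Agent.Results.MP_640417_ag.FourthPowerAtOnePrime
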