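import Mathlib
import Pool.Agent.R932.ProdF

/-!
# Tate classes on products of powers of `X` with arbitrary varieties, motives of odd rank

Let `k` be a field which is finitely generated over `ℚ`, `X` a smooth projective variety over `k` and `T_ℓ`,
for all prime numbers `ℓ`, a direct factor of `H^{2i}(X, ℚ_ℓ)(i)` which is cut out by correspondences
(for example the part which is orthogonal to the algebraic classes), with the symmetric form `B_ℓ` given by
a polarization. Suppose that the rank `N` of `T_ℓ` is odd and at least `5`. `Γ` is the Galois group of `k` (or the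
fundamental group of a model), `K` a number field and `s : G_K → Γ` the homomorphism given by a closed
point of the generic fibre of a model of `X` (if `k` is a number field, then `K = k` and `s` is the identity).
At the places `v ∉ S` of `K` the characteristic polynomial `P_v` of the geometric Frobenius on `T_ℓ` has
rational coefficients which do not depend on `ℓ` (Deligne).

Suppose that
(1) at some place `v₀ ∉ S`, `P_{v₀} = (X - 1) Q₀`, where no complex root of `Q₀` is a root
of unity and `x y ≠ z` for all complex roots `x`, `y`, `z` of `Q₀`;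
(2) at some place `v₁ ∉ S`, `P_{v₁} = (X - 1) Q₁`, where no complex root of `Q₁` is a
root of unity, and the rational number `Q₀(1) Q₀(-1) Q₁(1) Q₁(-1)` is not a square;
(3) `u_0, ..., u_m ∉ S` are places at which the roots of `P_{u_i}` are simple and no quotient of
different roots is a root of unity, and for every `g` in `Gal(ℚ)` and every `d` with `2 ≤ d ≤ N - 2`
there are a place `v` of this kind and an element `w` of `Gal(ℚ)` which agrees with `g` on
the intersection of the splitting fields of the `P_{u_i}` such that no set of `d` roots of `P_v` is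
stable under `w`.
These are conditions on finitely many Frobenius polynomials of `X`.

**Theorem.** There is a set of prime numbers of natural density zero, which depends only on `X`, with
the following property. Let `ℓ` be a prime number outside this set, let `Z` be any variety over
the algebraic closure of `k` (it is defined over a finite extension `k'`), and let `W` be a cohomology group of
`Z` with coefficients `ℚ_ℓ` and any Tate twist (or any representation of the open subgroup `U₀` of `Γ`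
given by `k'` on a `ℚ_ℓ`-vector space: no continuity, semisimplicity or purity is needed). Suppose that for
one place `v ∉ S` prime to `ℓ`, a Frobenius element `σ` at `v` and a power `s(σ)^f ∈ U₀` the
eigenvalues of `s(σ)^{-f}` on `W` are roots of a polynomial `R` with rational coefficients, and that some
root of `P_v` has no positive power in the multiplicative group generated by the roots of `R`.
Then for every `n` every multilinear map from `T_ℓ^n` to `W` which is equivariant under an open subgroup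
`U` is a linear combination of the maps

`(v_1, ..., v_n) ↦ (∏ B_ℓ(v_i, v_j)) w`,

where the product is over the pairs of a perfect matching of `{1, ..., n}` and `w ∈ W` is fixed by `U`
(a Tate class on `Z`), and of the maps

`(v_1, ..., v_n) ↦ det(v_{a_1}, ..., v_{a_N}) (∏ B_ℓ(v_i, v_j)) w`,

where `a_1, ..., a_N` are `N` of the variables, the product is over the pairs of a perfect matching of the
other variables and `U` acts on `w ∈ W` by the determinant of its action on `T_ℓ` (this is possible only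
for odd `n ≥ N`).

By duality such multilinear maps are the Tate classes in `T_ℓ^{⊗ n} ⊗ W`, a part of the cohomology
of `X^n × Z`. So for even `n` and for `n < N` all these Tate classes on `X^n × Z` are sums of products of
the polarization classes on `X × X` (algebraic) and Tate classes on `Z`, and they are algebraic if the Tate
classes on `Z` of the same kind are algebraic; in general one has in addition one class, the determinant
of `T` on `X^N`. For a surface `X` with `q = 0` and `H^2 = N ⊕ T` this concerns the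
whole cohomology of `X^n × Z`. Neither semisimplicity nor anything about the representations at single
primes is assumed.

Idea of the proof. Under (1), (2) and (3) the Lie algebra of the image of the Galois group on `T_ℓ` is
`so(T_ℓ)` for 100 percent of the `ℓ` (`MP_6369ef_ag.OddRankDensityOne`). The matrices `A` which annihilate
the multilinear map `φ` (`∑ φ(v_1, ..., A v_j, ..., v_n) = 0`) form a subspace which is stable under `[X, ]`
for all tangent vectors `X` of the image, so for all `X ∈ so(T_ℓ)`. The independent root gives an additive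
function `θ` on the multiplicative group of the algebraic closure of `ℚ_ℓ` which is zero on the eigenvalues
on `W` but not on the root. The operator which is `θ(x)` on the generalized eigenspace for
`x` annihilates `φ` (generalized eigenvectors are mapped to generalized eigenvectors) and it is a nonzero
element of `so(T_ℓ)` over the algebraic closure; its coordinates over `ℚ_ℓ` have the same property. So
`φ` is annihilated by a nonzero ideal, that is by `so(T_ℓ)`, and one uses the first fundamental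
theorem for the special orthogonal group for each coordinate of `φ`. The coefficients are then Tate
vectors.
-/

set_option autoImplicit false

namespace Pool.Agent.Results.MP_640417_ag.OddRankTimesAnything

open Matrix Polynomial Filter Topology NumberField IsDedekindDomain

/-- the absolute Galois group of `K`, with its profinite (Krull) topology -/
abbrev AbsoluteGaloisGroup (K : Type) [Field K] : Type := Gal(AlgebraicClosure K/K)

/-- `σ` is an (arithmetic) Frobenius element at the prime `v` of the number field `K`: for some prime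
`Q` of the algebraic closure above `v` it acts on the residue field as `x ↦ x ^ N(v)` -/
def IsFrobenius {K : Type} [Field K] [NumberField K] (v : HeightOneSpectrum (𝓞 K))
    (σ : AbsoluteGaloisGroup K) : Prop :=
  ∃ Q : Ideal (𝓞 (AlgebraicClosure K)), Q.IsMaximal ∧
    Q.comap (algebraMap (𝓞 K) (𝓞 (AlgebraicClosure K))) = v.asIdeal ∧
    ∀ x : 𝓞 (AlgebraicClosure K), σ • x - x ^ Ideal.absNorm v.asIdeal ∈ Q

/-- `ρ` is a continuous representation of `Γ` on `ℚ_ℓ ^ N` by isometries of the nondegenerate symmetric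
form with the matrix `B`; for all `v ∉ S` which are prime to `ℓ` the characteristic polynomial of (the image
under `s` of) the geometric Frobenius elements `σ⁻¹` (`σ` arithmetic) at `v` is `P v` -/
def IsOrthogonalSystem {K : Type} [Field K] [NumberField K] {Γ : Type} [Group Γ] [TopologicalSpace Γ]
    (s : AbsoluteGaloisGroup K →* Γ) (N ℓ : ℕ) [Fact ℓ.Prime]
    (ρ : Γ →* Matrix (Fin N) (Fin N) ℚ_[ℓ]) (B : Matrix (Fin N) (Fin N) ℚ_[ℓ])
    (S : Set (HeightOneSpectrum (𝓞 K))) (P : HeightOneSpectrum (𝓞 K) → ℚ[X]) : Prop :=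
  Continuous ρ ∧ Bᵀ = B ∧ B.det ≠ 0 ∧ (∀ γ, (ρ γ)ᵀ * B * ρ γ = B) ∧
    ∀ v ∉ S, (ℓ : 𝓞 K) ∉ v.asIdeal → ∀ σ : AbsoluteGaloisGroup K, IsFrobenius v σ →
      (ρ (s σ⁻¹)).charpoly = (P v).map (algebraMap ℚ ℚ_[ℓ])

/-- `P v = (X - 1) Q`, and no complex root of `Q` is a root of unity -/
def IsOrdinaryPlace {K : Type} [Field K] [NumberField K]
    (S : Set (HeightOneSpectrum (𝓞 K))) (P : HeightOneSpectrum (𝓞 K) → ℚ[X])
    (v : HeightOneSpectrum (𝓞 K)) (Q : ℚ[X]) : Prop :=
  v ∉ S ∧ P v = (X - 1) * Q ∧ ∀ k : ℕ, 0 < k → ∀ x : ℂ, aeval x Q = 0 → x ^ k ≠ 1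

/-- the roots of `P v` are simple, and different roots have different `n`-th powers for all `n > 0` -/
def IsRegularPlace {K : Type} [Field K] [NumberField K]
    (S : Set (HeightOneSpectrum (𝓞 K))) (P : HeightOneSpectrum (𝓞 K) → ℚ[X])
    (v : HeightOneSpectrum (𝓞 K)) : Prop :=
  v ∉ S ∧ (P v).Separable ∧ ∀ n : ℕ, 0 < n → ∀ x y : ℂ,
    aeval x (P v) = 0 → aeval y (P v) = 0 → x ^ n = y ^ n → x = y

/-- the splitting field of `Q` in the algebraic closure of `ℚ` -/
noncomputable def splittingField (Q : ℚ[X]) : Set (AlgebraicClosure ℚ) :=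
  (IntermediateField.adjoin ℚ {x : AlgebraicClosure ℚ | aeval x Q = 0} :
    IntermediateField ℚ (AlgebraicClosure ℚ))

/-- `R` is a set of roots of `Q` which is stable under `w` -/
def IsStableSet (w : AbsoluteGaloisGroup ℚ) (Q : ℚ[X]) (R : Set (AlgebraicClosure ℚ)) : Prop :=
  (∀ x ∈ R, aeval x Q = 0) ∧ ∀ x ∈ R, w x ∈ R

/-- some nonzero complex root of `Q` has no positive power in the multiplicative group generated by
the nonzero complex roots of `R` -/
def HasIndependentRoot (Q R : ℚ[X]) : Prop :=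
  ∃ x : ℂˣ, aeval (x : ℂ) Q = 0 ∧ ∀ m : ℕ, 0 < m →
    x ^ m ∉ Subgroup.closure {y : ℂˣ | aeval (y : ℂ) R = 0}

/-- The representation `W` of the open subgroup `U₀` is independent of the system: for some place `v ∉ S`
prime to `ℓ`, a Frobenius element `σ` at `v` and some `f > 0` with `s(σ) ^ (-f) ∈ U₀`, the
characteristic polynomial of `W(s(σ) ^ (-f))` divides a polynomial `R` with rational coefficients such that
some root of `P v` has no positive power in the group generated by the roots of `R` -/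
def IsIndependent {K : Type} [Field K] [NumberField K] {Γ : Type} [Group Γ]
    (s : AbsoluteGaloisGroup K →* Γ) (ℓ : ℕ) [Fact ℓ.Prime]
    (S : Set (HeightOneSpectrum (𝓞 K))) (P : HeightOneSpectrum (𝓞 K) → ℚ[X])
    (U₀ : Subgroup Γ) {L : ℕ} (W : U₀ →* Matrix (Fin L) (Fin L) ℚ_[ℓ]) : Prop :=
  ∃ (v : HeightOneSpectrum (𝓞 K)) (σ : AbsoluteGaloisGroup K) (f : ℕ) (h : s σ⁻¹ ^ f ∈ U₀) (R : ℚ[X]),
    v ∉ S ∧ (ℓ : 𝓞 K) ∉ v.asIdeal ∧ IsFrobenius v σ ∧ 0 < f ∧
      (W ⟨s σ⁻¹ ^ f, h⟩).charpoly ∣ R.map (algebraMap ℚ ℚ_[ℓ]) ∧ HasIndependentRoot (P v) R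

/-- For every open subgroup `U₀` of `Γ` and every independent representation `W` of `U₀`, every
multilinear map with `k` variables from `ℚ_ℓ ^ N` to `W` which is equivariant under an
open subgroup `U` of `U₀` is a linear combination of the maps `v ↦ (∏ B(v_j, v_{π j})) w` (one factor for
every pair `{j, π j}`), where `π` is a perfect matching of the variables and `w ∈ W` is fixed by `U`, and
of the maps `v ↦ det(v_{a_1}, ..., v_{a_N}) (∏ B(v_i, v_j)) w`, where the `N` variables `v_a` and the pairs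
`(v_i, v_j)` are given by a bijection `e` and `U` acts on `w` by the determinant of its action on
`ℚ_ℓ ^ N` -/
def TateClassesOnProducts {K : Type} [Field K] [NumberField K] {Γ : Type} [Group Γ]
    [TopologicalSpace Γ] (s : AbsoluteGaloisGroup K →* Γ) {N : ℕ} (ℓ : ℕ) [Fact ℓ.Prime]
    (ρ : Γ →* Matrix (Fin N) (Fin N) ℚ_[ℓ]) (B : Matrix (Fin N) (Fin N) ℚ_[ℓ])
    (S : Set (HeightOneSpectrum (𝓞 K))) (P : HeightOneSpectrum (𝓞 K) → ℚ[X]) : Prop :=
  ∀ (U₀ : Subgroup Γ), IsOpen (U₀ : Set Γ) →
    ∀ (L : ℕ) (W : U₀ →* Matrix (Fin L) (Fin L) ℚ_[ℓ]), IsIndependent s ℓ S P U₀ W →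
    ∀ (k : ℕ) (φ : MultilinearMap ℚ_[ℓ] (fun _ : Fin k => Fin N → ℚ_[ℓ]) (Fin L → ℚ_[ℓ]))
      (U : Subgroup U₀), IsOpen (U : Set U₀) →
    (∀ σ ∈ U, ∀ v, φ (fun j => ρ σ *ᵥ v j) = W σ *ᵥ φ v) →
    (fun v => φ v) ∈ Submodule.span ℚ_[ℓ] {ψ : (Fin k → Fin N → ℚ_[ℓ]) → (Fin L → ℚ_[ℓ]) |
      (∃ (π : Equiv.Perm (Fin k)) (w : Fin L → ℚ_[ℓ]), (∀ j, π (π j) = j) ∧ (∀ j, π j ≠ j) ∧
        (∀ σ ∈ U, W σ *ᵥ w = w) ∧
        ∀ v, ψ v = (∏ j with j < π j, (v j ⬝ᵥ B *ᵥ v (π j))) • w) ∨
      ∃ (m : ℕ) (e : (Fin m × Fin 2) ⊕ Fin N ≃ Fin k) (w : Fin L → ℚ_[ℓ]),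
        (∀ σ ∈ U, W σ *ᵥ w = (ρ σ).det • w) ∧
        ∀ v, ψ v = ((Matrix.of fun i => v (e (Sum.inr i))).det *
          ∏ l, (v (e (Sum.inl (l, 0))) ⬝ᵥ B *ᵥ v (e (Sum.inl (l, 1))))) • w}

/-- the set `A` of prime numbers has natural density zero -/
def HasDensityZero (A : Set ℕ) : Prop :=
  Tendsto (fun n : ℕ => (Nat.card {ℓ : ℕ // ℓ ≤ n ∧ ℓ ∈ A} : ℝ) / (Nat.primeCounting n : ℝ))
    atTop (𝓝 0)

/-- **Tate classes on the products of powers of `T`, of odd rank, with arbitrary representations, at 100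
percent of the primes `ℓ`.** -/
theorem result (K : Type) [Field K] [NumberField K] (Γ : Type) [Group Γ] [TopologicalSpace Γ]
    [IsTopologicalGroup Γ] [CompactSpace Γ] (s : AbsoluteGaloisGroup K →* Γ) (hs : Continuous s)
    (N : ℕ) (hodd : Odd N) (hN5 : 5 ≤ N) (S : Set (HeightOneSpectrum (𝓞 K))) (hS : S.Finite)
    (P : HeightOneSpectrum (𝓞 K) → ℚ[X])
    (ρ : ∀ (ℓ : ℕ) [Fact ℓ.Prime], Γ →* Matrix (Fin N) (Fin N) ℚ_[ℓ])
    (B : ∀ (ℓ : ℕ) [Fact ℓ.Prime], Matrix (Fin N) (Fin N) ℚ_[ℓ])
    (hρ : ∀ (ℓ : ℕ) [Fact ℓ.Prime], IsOrthogonalSystem s N ℓ (ρ ℓ) (B ℓ) S P)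
    -- the places
    (v₀ : HeightOneSpectrum (𝓞 K)) (Q₀ : ℚ[X]) (hv₀ : IsOrdinaryPlace S P v₀ Q₀)
    (hxyz : ∀ x y z : ℂ, aeval x Q₀ = 0 → aeval y Q₀ = 0 → aeval z Q₀ = 0 → x * y ≠ z)
    (v₁ : HeightOneSpectrum (𝓞 K)) (Q₁ : ℚ[X]) (hv₁ : IsOrdinaryPlace S P v₁ Q₁)
    (hsq : ¬ IsSquare (Q₀.eval 1 * Q₀.eval (-1) * (Q₁.eval 1 * Q₁.eval (-1))))
    (m : ℕ) (u : Fin (m + 1) → HeightOneSpectrum (𝓞 K)) (hu : ∀ i, IsRegularPlace S P (u i))
    (hd : ∀ (g : AbsoluteGaloisGroup ℚ) (d : ℕ), 2 ≤ d → d + 2 ≤ N →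
      ∃ (v : HeightOneSpectrum (𝓞 K)) (w : AbsoluteGaloisGroup ℚ), IsRegularPlace S P v ∧
        (∀ x, (∀ i, x ∈ splittingField (P (u i))) → w x = g x) ∧
        ∀ R, IsStableSet w (P v) R → R.ncard ≠ d) :
    HasDensityZero {ℓ | ∃ _ : Fact ℓ.Prime, ¬ TateClassesOnProducts s ℓ (ρ ℓ) (B ℓ) S P} := by
  have horth : ∀ (ℓ : ℕ) [Fact ℓ.Prime],
      Y142.ZO.Orthogonal K N ℓ ((ρ ℓ).comp s) (B ℓ) S P := fun ℓ _ =>
    ⟨(hρ ℓ).1.comp hs, (hρ ℓ).2.1, (hρ ℓ).2.2.1, fun g => (hρ ℓ).2.2.2.1 (s g),
      fun v hv hvℓ σ hσ => (hρ ℓ).2.2.2.2 v hv hvℓ σ hσ⟩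
  have hsys' : ∀ (ℓ : ℕ) [Fact ℓ.Prime], Y142.SS.Sys K N ℓ ((ρ ℓ).comp s) S P := fun ℓ _ =>
    ⟨(horth ℓ).1, fun v hv hvℓ σ hσ => (horth ℓ).2.2.2.2 v hv hvℓ σ hσ⟩
  have hnice : ∀ v, IsRegularPlace S P v → Y142.ZS.NiceP S P v := fun v hv =>
    Y142.SS.nice_of_complexA _ hsys' hv.1 hv.2.1 hv.2.2
  have hLf : ∀ (i : Fin (m + 1)) (x : AlgebraicClosure ℚ),
      x ∈ Y142.ZI.Lf (P (u i)) → x ∈ splittingField (P (u i)) := by
    intro i x hx
    have h2 : (P (u i)).rootSet (AlgebraicClosure ℚ) =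
        {x : AlgebraicClosure ℚ | aeval x (P (u i)) = 0} := by
      ext y
      exact mem_rootSet_of_ne (hu i).2.1.ne_zero
    unfold Y142.ZI.Lf at hx
    rw [h2] at hx
    exact hx
  refine Y142.ZI.DensityZero.mono (R932.tangent_odd hodd hS
    ⟨hv₀.1, hv₀.2.1, fun k hk => Y142.ZO.coprime_of_roots hv₀.2.2 k hk⟩ hxyz
    ⟨hv₁.1, hv₁.2.1, fun k hk => Y142.ZO.coprime_of_roots hv₁.2.2 k hk⟩ hsq ρ B horth u
    (fun i => hnice _ (hu i)) ?_) ?_
  · intro g d hd2 hdn
    obtain ⟨v, w, hv, hw, hR⟩ := hd g d hd2 (by rcases hdn with h | h <;> omega)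
    refine ⟨v, hnice v hv, w, fun R h1 h2 => hR R ⟨h1, h2⟩, ?_⟩
    refine Y142.SS.field_mem _ (fun i => (hu i).2.1.ne_zero) fun x hx => ?_
    rw [AlgEquiv.mul_apply, ← hw x fun i => hLf i x (hx i), ← AlgEquiv.mul_apply, inv_mul_cancel,
      AlgEquiv.one_apply]
  · rintro ℓ ⟨hp, hno⟩
    refine ⟨hp, fun hgood => hno ?_⟩
    intro U₀ hU₀ L W ⟨v, σ, f, hf, R, hv, hvℓ, hσ, hf0, hR, x, hx, hxm⟩ k φ U hU hφ
    exact R932.prod_so (hρ ℓ).1 (hρ ℓ).2.1 hN5 (hρ ℓ).2.2.1 hgood (hρ ℓ).2.2.2.1 hU₀ hf hf0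
      ((hρ ℓ).2.2.2.2 v hv hvℓ σ hσ) hR hx hxm hU hφ

end Pool.Agent.Results.MP_640417_ag.OddRankTimesAnything
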